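import Pool.Agent.H14.PD.Stmts

/-! Project PD, module DEA. -/

set_option autoImplicit false

namespace Pool.Agent.H14.PD

theorem pd_dea : M_DEA := by
  intro hTRB hARC hTAU Y S C y0 y s u
  obtain ⟨-, -, -, -, tRc, -, -⟩ := hTAU Y S C.toSq y0
  obtain ⟨ar0, armono, arr, armul, arconj, arinv, -⟩ := hARC (Y × S) (C.rel y0)
  induction u generalizing y with
  | nil =>
    intro hRc _ hTr
    have hl : C.lab y s := hTr.1
    have hmem : wd C.act y [s, s] ∈ C.rel y0 := Or.inr (Or.inl ⟨y, s, hRc, hl, rfl⟩)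
    have h1 := arr _ hmem
    have h2 : wd C.act y (s :: ([] ++ [s])) * (wd C.act y [])⁻¹ = wd C.act y [s, s] := by
      simp [wd]
    rw [h2]
    exact h1
  | cons t u' ih =>
    intro hRc hcm hTr
    have hst : C.cm s t := hcm t (by simp)
    have hts : C.cm t s := C.cm_symm _ _ hst
    obtain ⟨hys, hyst, hTr'⟩ := hTr
    have hyt : C.lab y t := C.cv y s t hst hys hyst
    have hsq := C.sq y t s hts hyt hys
    have hinv1 := C.inv y t hyt
    have hinv2 := C.inv (C.act y t) s hsq.1
    have hRt : C.Rc y0 (C.act y t) := by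
      have := tRc y [t] hRc ⟨hyt, trivial⟩
      simpa [en] using this
    have hTr2 : Tr C.lab C.act (C.act y t) (s :: (u' ++ [s])) := by
      refine ⟨hsq.1, ?_⟩
      rw [hsq.2]
      exact hTr'
    have hih := ih (C.act y t) hRt (fun a ha => hcm a (by simp [ha])) hTr2
    -- relators
    have hmem1 : wd C.act y [s, t, s, t] ∈ C.rel y0 := by
      refine Or.inr (Or.inr (Or.inl ⟨y, s, t, hRc, hst, ?_, ?_, rfl⟩))
      · refine ⟨hys, hyst, ?_, ?_, trivial⟩
        · rw [← hsq.2]; exact hinv2.1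
        · rw [← hsq.2, hinv2.2]; exact hinv1.1
      · show C.act (C.act (C.act (C.act y s) t) s) t = y
        rw [← hsq.2, hinv2.2]; exact hinv1.2
    have hmem2 : wd C.act (C.act y t) [s, s] ∈ C.rel y0 :=
      Or.inr (Or.inl ⟨C.act y t, s, hRt, hsq.1, rfl⟩)
    have hmem3 : wd C.act y [t, t] ∈ C.rel y0 := Or.inr (Or.inl ⟨y, t, hRc, hyt, rfl⟩)
    have r1 := arr _ hmem1
    have r2 := arinv _ _ (arr _ hmem2)
    have r3 := arinv _ _ (arr _ hmem3)
    have r2' := arconj _ _ ((FreeGroup.of (C.act y t, t))⁻¹) r2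
    have ih' := arconj _ _ (FreeGroup.of (y, t)) hih
    have tot := armul _ _ _ _ (armul _ _ _ _ (armul _ _ _ _ r1 r2') r3) ih'
    have hn : 1 + 1 + 1 + (3 * u'.length + 1) = 3 * (t :: u').length + 1 := by
      simp; ring
    rw [hn] at tot
    convert tot using 1
    simp only [wd, List.cons_append, mul_one, inv_inv, ← hsq.2, hinv2.2]
    group
end Pool.Agent.H14.PD
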