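import Pool.Agent.H14.PD.Stmts

/-! Project PD, module PRR. -/

set_option autoImplicit false

namespace Pool.Agent.H14.PD

/-- a path followed by its reverse -/
theorem pd_prr_bt (hTRB : TRB) (hARC : ARC) (hTAU : TAU) {Y S : Type} (Q : Sq Y S) (y0 : Y)
    (u : List S) : ∀ y : Y, Q.Rc y0 y → Tr Q.lab Q.act y u →
      Ar (Q.rel y0) u.length (wd Q.act y u * wd Q.act (en Q.act y u) u.reverse) := by
  obtain ⟨-, -, twd, trev⟩ := hTRB Y S Q.lab Q.act
  obtain ⟨-, -, -, -, tRc, -, -⟩ := hTAU Y S Q y0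
  obtain ⟨ar0, armono, arr, armul, arconj, arinv, -⟩ := hARC (Y × S) (Q.rel y0)
  induction u with
  | nil =>
    intro y _ _
    simpa [wd, en] using ar0
  | cons s u ih =>
    intro y hRc hTr
    obtain ⟨hl, hTr'⟩ := hTr
    have hR' : Q.Rc y0 (Q.act y s) := by
      have := tRc y [s] hRc ⟨hl, trivial⟩
      simpa [en] using this
    have h1 := ih (Q.act y s) hR' hTr'
    have h2 : en Q.act (en Q.act (Q.act y s) u) u.reverse = Q.act y s :=
      (trev Q.inv (Q.act y s) u hTr').2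
    have hmem : wd Q.act y [s, s] ∈ Q.rel y0 := Or.inr (Or.inl ⟨y, s, hRc, hl, rfl⟩)
    have h3 := armul _ _ _ _ (arconj _ _ (FreeGroup.of (y, s)) h1) (arr _ hmem)
    have h4 : u.length + 1 = (s :: u).length := by simp
    rw [h4] at h3
    convert h3 using 1
    rw [List.reverse_cons, twd]
    simp only [wd, en, h2, mul_one]
    group

/-- one letter -/
theorem pd_prr_one (hPRB : PRB) (hTRB : TRB) (hARC : ARC) (hTAU : TAU) (hPHI : PHI) {Y S : Type}
    (Q : Sq Y S) (y0 : Y) (T : ℕ) (hT : ∀ y, (Q.tau y0 y).length ≤ T) (y : Y) (s : S) (bl : Bool) :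
    ∃ c : List S, Tr Q.lab Q.act y0 c ∧ en Q.act y0 c = y0 ∧
    pr Q.cm c = Q.Phi y0 (FreeGroup.mk [((y, s), bl)]) ∧ c.length ≤ 2 * T + 1 ∧
    Ar (Q.rel y0) (T + 3) (FreeGroup.mk [((y, s), bl)] * (wd Q.act y0 c)⁻¹) := by
  obtain ⟨ttr, ten, twd, trev⟩ := hTRB Y S Q.lab Q.act
  obtain ⟨tau0, taut, taue, tRc0, tRc, tRcb, -⟩ := hTAU Y S Q y0
  obtain ⟨ar0, armono, arr, armul, arconj, arinv, -⟩ := hARC (Y × S) (Q.rel y0)
  obtain ⟨ph1, ph2, -, -⟩ := hPHI Y S Q y0
  obtain ⟨p1, p2, p3, p4, -, p6⟩ := hPRB S Q.cm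
  have hwd1 : ∀ z a, wd Q.act z [a] = FreeGroup.of (z, a) := by intro z a; simp [wd]
  -- the return path
  have hret : ∀ z, Q.Rc y0 z → Ar (Q.rel y0) (T + 1) (wd Q.act z (Q.tau y0 z).reverse) := by
    intro z hz
    have h1 := pd_prr_bt hTRB hARC hTAU Q y0 (Q.tau y0 z) y0 tRc0 (taut z)
    rw [taue z hz] at h1
    have hmem : wd Q.act y0 (Q.tau y0 z) ∈ Q.rel y0 := Or.inr (Or.inr (Or.inr ⟨z, hz, rfl⟩))
    have h2 := armul _ _ _ _ (arinv _ _ (arr _ hmem)) h1
    rw [inv_mul_cancel_left] at h2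
    exact armono _ _ _ (by have := hT z; omega) h2
  -- the loops
  have hloop : ∀ z a, Q.Rc y0 z → Q.lab z a → Q.Rc y0 (Q.act z a) →
      Tr Q.lab Q.act y0 (Q.tau y0 z ++ ([a] ++ (Q.tau y0 (Q.act z a)).reverse)) ∧
      en Q.act y0 (Q.tau y0 z ++ ([a] ++ (Q.tau y0 (Q.act z a)).reverse)) = y0 ∧
      pr Q.cm (Q.tau y0 z ++ ([a] ++ (Q.tau y0 (Q.act z a)).reverse)) =
        pr Q.cm (Q.tau y0 z) * io Q.cm a * (pr Q.cm (Q.tau y0 (Q.act z a)))⁻¹ ∧
      (Q.tau y0 z ++ ([a] ++ (Q.tau y0 (Q.act z a)).reverse)).length ≤ 2 * T + 1 ∧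
      wd Q.act y0 (Q.tau y0 z ++ ([a] ++ (Q.tau y0 (Q.act z a)).reverse)) =
        wd Q.act y0 (Q.tau y0 z) * (FreeGroup.of (z, a) *
          wd Q.act (Q.act z a) (Q.tau y0 (Q.act z a)).reverse) := by
    intro z a hz hl hz'
    have hrev := trev Q.inv y0 (Q.tau y0 (Q.act z a)) (taut _)
    rw [taue _ hz'] at hrev
    refine ⟨?_, ?_, ?_, ?_, ?_⟩
    · rw [ttr, ttr, taue z hz]
      exact ⟨taut z, ⟨hl, trivial⟩, by simpa [en] using hrev.1⟩
    · rw [ten, ten, taue z hz]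
      simpa [en] using hrev.2
    · rw [p3, p3, p6, p2, p1, mul_one, mul_assoc]
    · have h1 := hT z
      have h2 := hT (Q.act z a)
      simp only [List.length_append, List.length_reverse, List.length_cons, List.length_nil]
      omega
    · rw [twd, twd, taue z hz, hwd1]
      simp [en]
  by_cases hg : Q.Rc y0 y ∧ Q.lab y s
  · obtain ⟨hRc, hl⟩ := hg
    have hR' : Q.Rc y0 (Q.act y s) := by
      have := tRc y [s] hRc ⟨hl, trivial⟩
      simpa [en] using this
    have hinv := Q.inv y s hl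
    have hPhi : Q.Phi y0 (FreeGroup.of (y, s)) =
        pr Q.cm (Q.tau y0 y) * io Q.cm s * (pr Q.cm (Q.tau y0 (Q.act y s)))⁻¹ := by
      have := ph1 y [s] hRc ⟨hl, trivial⟩
      rw [hwd1, p2, p1, mul_one] at this
      simpa [en] using this
    have hio : (io Q.cm s)⁻¹ = io Q.cm s := inv_eq_of_mul_eq_one_left (p4 s)
    have hmemA : ∀ z, Q.Rc y0 z → wd Q.act y0 (Q.tau y0 z) ∈ Q.rel y0 := fun z hz =>
      Or.inr (Or.inr (Or.inr ⟨z, hz, rfl⟩))
    cases bl with
    | true =>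
      have hmk : FreeGroup.mk [((y, s), true)] = FreeGroup.of (y, s) := rfl
      obtain ⟨a1, a2, a3, a4, a5⟩ := hloop y s hRc hl hR'
      refine ⟨_, a1, a2, ?_, a4, ?_⟩
      · rw [a3, hmk, hPhi]
      · rw [a5, hmk]
        have h1 := arconj _ _ (FreeGroup.of (y, s)) (arinv _ _ (hret (Q.act y s) hR'))
        have h2 := arinv _ _ (arr _ (hmemA y hRc))
        have h3 := armul _ _ _ _ h1 h2
        refine armono _ _ _ (by omega) (?_ : Ar (Q.rel y0) (T + 1 + 1) _)
        convert h3 using 1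
        group
    | false =>
      have hmk : FreeGroup.mk [((y, s), false)] = (FreeGroup.of (y, s))⁻¹ := rfl
      have hR'' : Q.Rc y0 (Q.act (Q.act y s) s) := by rw [hinv.2]; exact hRc
      obtain ⟨a1, a2, a3, a4, a5⟩ := hloop (Q.act y s) s hR' hinv.1 hR''
      refine ⟨_, a1, a2, ?_, a4, ?_⟩
      · rw [a3, hmk, map_inv, hPhi, hinv.2]
        simp only [mul_inv_rev, inv_inv, hio]
        rw [mul_assoc]
      · rw [a5, hmk, hinv.2]
        have h1 := arconj _ _ ((FreeGroup.of (y, s))⁻¹) (arinv _ _ (hret y hRc))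
        have h2 := arinv _ _ (arr _ (hmemA (Q.act y s) hR'))
        have hmem : wd Q.act (Q.act y s) [s, s] ∈ Q.rel y0 :=
          Or.inr (Or.inl ⟨Q.act y s, s, hR', hinv.1, rfl⟩)
        have h3 := arinv _ _ (arr _ hmem)
        have h4 := armul _ _ _ _ (armul _ _ _ _ h1 h3) h2
        refine armono _ _ _ (by omega) (?_ : Ar (Q.rel y0) (T + 1 + 1 + 1) _)
        convert h4 using 1
        simp only [wd, hinv.2]
        group
  · have hmem : FreeGroup.of (y, s) ∈ Q.rel y0 := Or.inl ⟨y, s, hg, rfl⟩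
    have hP : Q.Phi y0 (FreeGroup.of (y, s)) = 1 := ph2 _ hmem
    refine ⟨[], trivial, rfl, ?_, by simp, ?_⟩
    · cases bl with
      | true =>
        have hmk : FreeGroup.mk [((y, s), true)] = FreeGroup.of (y, s) := rfl
        rw [hmk, hP, p1]
      | false =>
        have hmk : FreeGroup.mk [((y, s), false)] = (FreeGroup.of (y, s))⁻¹ := rfl
        rw [hmk, map_inv, hP, p1, inv_one]
    · have hw : (wd Q.act y0 ([] : List S))⁻¹ = 1 := by simp [wd]
      rw [hw, mul_one]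
      refine armono 1 _ _ (by omega) ?_
      cases bl with
      | true => exact arr _ hmem
      | false => exact arinv _ _ (arr _ hmem)

theorem pd_prr : M_PRR := by
  intro hPRB hTRB hARC hTAU hPHI Y S Q y0 T hT L
  obtain ⟨ttr, ten, twd, trev⟩ := hTRB Y S Q.lab Q.act
  obtain ⟨ar0, armono, arr, armul, arconj, arinv, -⟩ := hARC (Y × S) (Q.rel y0)
  obtain ⟨p1, p2, p3, p4, -, p6⟩ := hPRB S Q.cm
  induction L with
  | nil =>
    refine ⟨[], trivial, rfl, ?_, by simp, ?_⟩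
    · have : FreeGroup.mk ([] : List ((Y × S) × Bool)) = 1 := rfl
      rw [this, map_one, p1]
    · have : FreeGroup.mk ([] : List ((Y × S) × Bool)) = 1 := rfl
      simpa [wd, this] using ar0
  | cons x L ih =>
    obtain ⟨⟨y, s⟩, bl⟩ := x
    obtain ⟨c1, b1, b2, b3, b4, b5⟩ := ih
    obtain ⟨c0, a1, a2, a3, a4, a5⟩ := pd_prr_one hPRB hTRB hARC hTAU hPHI Q y0 T hT y s bl
    have hmk : FreeGroup.mk (((y, s), bl) :: L) =
        FreeGroup.mk [((y, s), bl)] * FreeGroup.mk L := by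
      rw [FreeGroup.mul_mk]; rfl
    refine ⟨c0 ++ c1, ?_, ?_, ?_, ?_, ?_⟩
    · rw [ttr, a2]; exact ⟨a1, b1⟩
    · rw [ten, a2]; exact b2
    · rw [p3, a3, b3, hmk, map_mul]
    · simp only [List.length_append, List.length_cons]
      calc c0.length + c1.length ≤ (2 * T + 1) + (2 * T + 1) * L.length := by omega
        _ = (2 * T + 1) * (L.length + 1) := by ring
    · rw [twd, a2, hmk]
      have h1 := armul _ _ _ _ a5 (arconj _ _ (wd Q.act y0 c0) b5)
      have h2 : T + 3 + (T + 3) * L.length = (T + 3) * (((y, s), bl) :: L).length := by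
        simp only [List.length_cons]; ring
      rw [h2] at h1
      convert h1 using 1
      group

end Pool.Agent.H14.PD
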